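import Pool.Agent.AAC.Fin

/-! # All generating sets of `SL₂(F)` and `PGL₂(F)` in almost all characteristics -/

namespace Pool.Agent.Results.MP_37b372_al.AlmostAllCharacteristics

open Matrix
open scoped MatrixGroups

/-- `IsWord S n g`: the group element `g` is a product of at most `n` factors, each of which is an
element of `S` or the inverse of an element of `S`. -/
def IsWord {G : Type} [Group G] (S : Set G) (n : ℕ) (g : G) : Prop :=
  ∃ l : List G, l.length ≤ n ∧ (∀ x ∈ l, x ∈ S ∨ x⁻¹ ∈ S) ∧ l.prod = g

/-- `AllShort G L`: for every generating set `S` of `G`, every element of `G` is a word of length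
at most `L` in `S`. -/
def AllShort (G : Type) [Group G] (L : ℝ) : Prop :=
  ∀ S : Set G, Subgroup.closure S = ⊤ → ∀ g : G, ∃ m : ℕ, IsWord S m g ∧ (m : ℝ) ≤ L

/-- There is `C > 0` such that for every `n` there is a set `E` of less than `2^(1049 n)` natural
numbers such that for every finite field `F` whose characteristic is not in `E`: if
`n ≤ log |G|` for `G = SL₂(F)` or `G = PGL₂(F)` then, for EVERY generating set `S` of `G`, every
element of `G` is a word of length at most `C (log |G|)^9 / (n + 1)^8` in `S`. -/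
theorem result :
    ∃ C : ℝ, 0 < C ∧ ∀ n : ℕ, ∃ E : Finset ℕ, E.card < 2 ^ (1049 * n) ∧
      ∀ (F : Type) [Field F] [Fintype F], ringChar F ∉ E →
        ((n : ℝ) ≤ Real.log (Nat.card SL(2, F)) →
          AllShort SL(2, F) (C * (Real.log (Nat.card SL(2, F)) ^ 9 / ((n : ℝ) + 1) ^ 8))) ∧
        ((n : ℝ) ≤ Real.log (Nat.card PGL(2, F)) →
          AllShort PGL(2, F) (C * (Real.log (Nat.card PGL(2, F)) ^ 9 / ((n : ℝ) + 1) ^ 8))) := by
  exact AAC.aac

end Pool.Agent.Results.MP_37b372_al.AlmostAllCharacteristics
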