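import Pool.Agent.TRS.Bc

/-! # Generating sets of large diameter of `SL₂(F)` and `PGL₂(F)` are confined to few small sets -/

namespace Pool.Agent.Results.MP_37b372_al.Confinement

open Matrix
open scoped MatrixGroups

/-- `IsWord S n g`: the group element `g` is a product of at most `n` factors, each of which is an
element of `S` or the inverse of an element of `S`. -/
def IsWord {G : Type} [Group G] (S : Set G) (n : ℕ) (g : G) : Prop :=
  ∃ l : List G, l.length ≤ n ∧ (∀ x ∈ l, x ∈ S ∨ x⁻¹ ∈ S) ∧ l.prod = g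

/-- `Short S L`: every element of `G` is a word of length at most `L` in `S`. -/
def Short {G : Type} [Group G] (S : Set G) (L : ℝ) : Prop :=
  ∀ g : G, ∃ m : ℕ, IsWord S m g ∧ (m : ℝ) ≤ L

/-- `Confined G L M`: there is a family of at most `|G| M` subsets of `G`, each with at most `M`
elements, such that for every generating set `S` of `G` which is not `Short` for `L` some member
of the family contains all subsets `S' ⊇ S` of `G` which are not `Short` for `L` (in particular
`S` itself). -/
def Confined (G : Type) [Group G] (L M : ℝ) : Prop :=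
  ∃ A : Set (Set G), ((A.ncard : ℕ) : ℝ) ≤ Nat.card G * M ∧
    (∀ B ∈ A, ((B.ncard : ℕ) : ℝ) ≤ M) ∧
    ∀ S : Set G, Subgroup.closure S = ⊤ → ¬Short S L →
      ∃ B ∈ A, ∀ S' : Set G, S ⊆ S' → ¬Short S' L → S' ⊆ B

/-- There is `C > 0` such that, for every finite field `F`, `G = SL₂(F)` or `G = PGL₂(F)`, and every
integer `1 ≤ n ≤ log |G|`, `Confined G L M` holds with `L = C (log |G|)^9 / n^8` and
`M = 2^(200 n)`. -/
theorem result :
    ∃ C : ℝ, 0 < C ∧ ∀ (F : Type) [Field F] [Fintype F] (n : ℕ), 1 ≤ n →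
      ((n : ℝ) ≤ Real.log (Nat.card SL(2, F)) →
        Confined SL(2, F) (C * (Real.log (Nat.card SL(2, F)) ^ 9 / (n : ℝ) ^ 8))
          ((2 : ℝ) ^ (200 * n))) ∧
      ((n : ℝ) ≤ Real.log (Nat.card PGL(2, F)) →
        Confined PGL(2, F) (C * (Real.log (Nat.card PGL(2, F)) ^ 9 / (n : ℝ) ^ 8))
          ((2 : ℝ) ^ (200 * n))) := by
  exact TRS.conf

end Pool.Agent.Results.MP_37b372_al.Confinement
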