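import Pool.Agent.TRS.Star

/-! # All generating sets of `SL₂(F)` and `PGL₂(F)` with a word of nonexceptional trace -/

namespace Pool.Agent.Results.MP_37b372_al.ExceptionalTraces

open Matrix
open scoped MatrixGroups

/-- `IsWord S n g`: the group element `g` is a product of at most `n` factors, each of which is an
element of `S` or the inverse of an element of `S`. -/
def IsWord {G : Type} [Group G] (S : Set G) (n : ℕ) (g : G) : Prop :=
  ∃ l : List G, l.length ≤ n ∧ (∀ x ∈ l, x ∈ S ∨ x⁻¹ ∈ S) ∧ l.prod = g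

/-- the class function `(tr g)² / det g` on `PGL₂(F)`, computed with some matrix representing `g`
(it does not depend on this matrix: `trSq_mk`) -/
noncomputable def trSq (F : Type) [Field F] (g : PGL(2, F)) : F :=
  (Matrix.trace (Function.surjInv Matrix.ProjGenLinGroup.mk_surjective g :
    GL (Fin 2) F).val) ^ 2 /
    (Function.surjInv Matrix.ProjGenLinGroup.mk_surjective g : GL (Fin 2) F).val.det

theorem trSq_mk (F : Type) [Field F] (g : GL (Fin 2) F) :
    trSq F (Matrix.ProjGenLinGroup.mk g) = (Matrix.trace g.val) ^ 2 / g.val.det :=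
  TRS.chi_mk F g

/-- `Exceptional G χ C n`, for a group `G` and a function `χ` on `G`: there is a set `T` of less than
`2^(49 n)` values such that, for every generating set `S` of `G` and every word `w` of length at
most `ℓ` in `S` with `χ w ∉ T`, every element of `G` is a word of length at most
`C ℓ (log |G|)^9 / (n + 1)^8` in `S`. -/
def Exceptional (G : Type) [Group G] {F : Type} (χ : G → F) (C : ℝ) (n : ℕ) : Prop :=
  ∃ T : Finset F, T.card < 2 ^ (49 * n) ∧ ∀ S : Set G, Subgroup.closure S = ⊤ →
    ∀ (ℓ : ℕ) (w : G), 1 ≤ ℓ → IsWord S ℓ w → χ w ∉ T →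
      ∀ g : G, ∃ m : ℕ, IsWord S m g ∧
        (m : ℝ) ≤ C * ℓ * (Real.log (Nat.card G) ^ 9 / ((n : ℝ) + 1) ^ 8)

/-- There is `C > 0` such that, for every finite field `F` and `G = SL₂(F)` (with `χ` the trace) or
`G = PGL₂(F)` (with `χ = tr² / det`), and every integer `0 ≤ n ≤ log |G|`, `Exceptional G χ C n`
holds. -/
theorem result :
    ∃ C : ℝ, 0 < C ∧ ∀ (F : Type) [Field F] [Fintype F] (n : ℕ),
      ((n : ℝ) ≤ Real.log (Nat.card SL(2, F)) →
        Exceptional SL(2, F) (fun g => (g : Matrix (Fin 2) (Fin 2) F).trace) C n) ∧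
      ((n : ℝ) ≤ Real.log (Nat.card PGL(2, F)) → Exceptional PGL(2, F) (trSq F) C n) := by
  exact TRS.star

end Pool.Agent.Results.MP_37b372_al.ExceptionalTraces
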