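import Pool.Agent.Helper72.PT.FinalX2

/-! # Generating sets of `SL₂(F)` containing an element with trace in a small subfield -/

namespace Pool.Agent.Results.MP_37b372_al.SmallTraceField

open Matrix Module

/-- `IsWord S n g`: the group element `g` is a product of at most `n` factors, each of which is an
element of `S` or the inverse of an element of `S`. -/
def IsWord {G : Type} [Group G] (S : Set G) (n : ℕ) (g : G) : Prop :=
  ∃ l : List G, l.length ≤ n ∧ (∀ x ∈ l, x ∈ S ∨ x⁻¹ ∈ S) ∧ l.prod = g

/-- There is `C > 0` such that, for every finite field `F`, every generating set `S` of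
`G = SL₂(F)` and every `a ∈ G` which is a word of length at most `ℓ` in `S`, with `a ≠ ±1` and nonzero
trace: if the trace of `a` lies in the subfield `F₀` of `F`, then every element of `G` is a word of
length at most `C ℓ (log |F₀|)^8 log |G|` in `S`. -/
theorem result :
    ∃ C : ℝ, 0 < C ∧ ∀ (F : Type) [Field F] [Fintype F]
      (S : Set (Matrix.SpecialLinearGroup (Fin 2) F)), Subgroup.closure S = ⊤ →
      ∀ (ℓ : ℕ) (a : Matrix.SpecialLinearGroup (Fin 2) F), IsWord S ℓ a →
      (a : Matrix (Fin 2) (Fin 2) F) ≠ 1 → (a : Matrix (Fin 2) (Fin 2) F) ≠ -1 →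
      (a : Matrix (Fin 2) (Fin 2) F).trace ≠ 0 →
      ∀ F₀ : Subfield F, (a : Matrix (Fin 2) (Fin 2) F).trace ∈ F₀ →
      ∀ g : Matrix.SpecialLinearGroup (Fin 2) F, ∃ n : ℕ, IsWord S n g ∧
        (n : ℝ) ≤ C * ℓ * Real.log (Nat.card F₀) ^ 8 *
          Real.log (Nat.card (Matrix.SpecialLinearGroup (Fin 2) F)) := by
  exact Pool.Agent.Helper72.PT.finalX2

end Pool.Agent.Results.MP_37b372_al.SmallTraceField
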